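import Pool.Agent.Helper44.TOT.Defs

/-! TOT project (captain helper44), piece T6: `TypeB2b` -/

set_option autoImplicit false

namespace Pool.Agent.Helper7.TOT

open Pool.Agent.Helper44.TOT

noncomputable section

/-- powers of `log log` are small against `log` -/
theorem ll_pow_le (n : ℕ) (c : ℝ) (hc : 0 < c) :
    ∃ X0 : ℕ, ∀ x : ℕ, X0 ≤ x → (ll x) ^ n ≤ c * Real.log x := by
  have h1 : (fun y : ℝ => Real.log y ^ n) =o[Filter.atTop] (fun y : ℝ => y) :=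
    Real.isLittleO_pow_log_id_atTop
  have h2 := h1.bound hc
  have h3 : Filter.Tendsto (fun x : ℕ => Real.log (x : ℝ)) Filter.atTop Filter.atTop :=
    Real.tendsto_log_atTop.comp tendsto_natCast_atTop_atTop
  have h4 := h3.eventually h2
  have h5 := h3.eventually (Filter.eventually_ge_atTop (0:ℝ))
  obtain ⟨X0, hX⟩ := Filter.eventually_atTop.1 (h4.and h5)
  refine ⟨X0, fun x hx => ?_⟩
  obtain ⟨h6, h7⟩ := hX x hx
  simp only [Real.norm_eq_abs] at h6
  rw [abs_of_nonneg h7] at h6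
  exact (le_abs_self _).trans h6

theorem tail_simple {x a : ℕ} {C0 ρ ι uB : ℝ} {b : ℕ → ℝ} (hc : Cst a C0 ρ ι)
    (ht : Tail x a C0 ρ ι uB b) {y : ℕ} {β : ℝ} (hy : (x : ℝ) ^ uB ≤ y) (hyx : y < x) (hy1 : 1 < y)
    (hβ : 0 < β) :
    (blk (fun q => β ≤ b q) y : ℝ) ≤
      C0 * Real.exp (-(((1 - ι) * β) ^ a)) * (y / Real.log y) := by
  have h1 := ht.t1 y β hy hyx hβ
  have hly : 0 < Real.log y := Real.log_pos (by exact_mod_cast hy1)
  have hlag : 0 ≤ Real.log (Real.log x / Real.log y) := by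
    apply Real.log_nonneg
    rw [le_div_iff₀ hly, one_mul]
    exact Real.log_le_log (by positivity) (by exact_mod_cast hyx.le)
  have hC0 := hc.hC0
  have hρ := hc.hρ
  have hι := hc.hι'
  refine h1.trans (mul_le_mul_of_nonneg_right (mul_le_mul_of_nonneg_left
    (Real.exp_le_exp.2 (neg_le_neg (pow_le_pow_left₀ ?_ ?_ a))) (by linarith only [hC0])) (by positivity))
  · exact mul_nonneg (by linarith only [hι]) hβ.le
  · apply mul_le_mul_of_nonneg_left _ (by linarith)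
    have : 0 ≤ ρ * Real.log (Real.log x / Real.log y) := mul_nonneg (by linarith) hlag
    linarith

open Classical in
/-- the multipliers `m = k l` in `(M/2, M]` -/
def MsSet (x M1 : ℕ) (uB Bb : ℝ) (b : ℕ → ℝ) (M : ℕ) : Finset ℕ :=
  (Finset.Ioc (M / 2) M).filter (fun m => ∃ k l : ℕ, m = k * l ∧ l.Prime ∧ 1 ≤ k ∧ k ≤ M1 ∧
    (x : ℝ) ^ uB ≤ l ∧ Bb ≤ b l)

theorem sum_inv_le (n : ℕ) : ∑ k ∈ Finset.Icc 1 n, (1 : ℝ) / k ≤ 1 + Real.log n := by
  have h := harmonic_le_one_add_log n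
  rw [harmonic_eq_sum_Icc] at h
  push_cast at h
  simpa [one_div] using h

theorem card_MsSet_le {x a M1 M : ℕ} {C0 ρ ι uB Bb : ℝ} {b : ℕ → ℝ} (hc : Cst a C0 ρ ι)
    (ht : Tail x a C0 ρ ι uB b) (hB : 0 < Bb) (hM : M < x) (hu : 0 < uB)
    (hx : 1 < x) (hxu : 2 < (x : ℝ) ^ uB) :
    ((MsSet x M1 uB Bb b M).card : ℝ) ≤
      C0 * Real.exp (-(((1 - ι) * Bb) ^ a)) * (M * (1 + Real.log M1) / (uB * Real.log x)) := by
  classical
  have hL : 0 < Real.log x := Real.log_pos (by exact_mod_cast hx)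
  have hC0 := hc.hC0
  set F : ℕ → Finset ℕ := fun k => (Finset.Ioc ((M / k) / 2) (M / k)).filter
    (fun l => l.Prime ∧ (x : ℝ) ^ uB ≤ l ∧ Bb ≤ b l) with hF
  have hsub : MsSet x M1 uB Bb b M ⊆
      (Finset.Icc 1 M1).biUnion (fun k => (F k).image (fun l => k * l)) := by
    intro m hm
    unfold MsSet at hm
    rw [Finset.mem_filter, Finset.mem_Ioc] at hm
    obtain ⟨⟨h1, h2⟩, k, l, h3, h4, h5, h6, h7, h8⟩ := hm
    rw [Finset.mem_biUnion]
    refine ⟨k, Finset.mem_Icc.2 ⟨h5, h6⟩, Finset.mem_image.2 ⟨l, ?_, h3.symm⟩⟩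
    rw [hF]
    refine Finset.mem_filter.2 ⟨Finset.mem_Ioc.2 ⟨?_, ?_⟩, h4, h7, h8⟩
    · rw [Nat.div_div_eq_div_mul, Nat.div_lt_iff_lt_mul (by positivity)]
      rw [h3, Nat.div_lt_iff_lt_mul (by norm_num)] at h1
      calc M < k * l * 2 := h1
        _ = l * (k * 2) := by ring
    · rw [Nat.le_div_iff_mul_le (by omega)]
      rw [h3] at h2
      calc l * k = k * l := mul_comm _ _
        _ ≤ M := h2
  have hFk : ∀ k ∈ Finset.Icc 1 M1, ((F k).card : ℝ) ≤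
      C0 * Real.exp (-(((1 - ι) * Bb) ^ a)) * (M / (uB * Real.log x)) * (1 / k) := by
    intro k hk
    have hk1 : 1 ≤ k := (Finset.mem_Icc.1 hk).1
    rcases (F k).eq_empty_or_nonempty with h0 | ⟨l, hl⟩
    · rw [h0]; simp only [Finset.card_empty, Nat.cast_zero]; positivity
    · rw [hF] at hl
      obtain ⟨h1, h2, h3, h4⟩ := Finset.mem_filter.1 hl
      have h5 := (Finset.mem_Ioc.1 h1).2
      have hy : (x : ℝ) ^ uB ≤ ((M / k : ℕ) : ℝ) := h3.trans (by exact_mod_cast h5)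
      have hyx : M / k < x := (Nat.div_le_self M k).trans_lt hM
      have hy1 : 1 < M / k := by
        have : (2 : ℝ) < ((M / k : ℕ) : ℝ) := hxu.trans_le hy
        have h' : 2 < M / k := by exact_mod_cast this
        omega
      have h6 := tail_simple hc ht hy hyx hy1 hB
      have h7 : (F k).card ≤ blk (fun q => Bb ≤ b q) (M / k) := by
        unfold blk
        apply Finset.card_le_card
        intro q hq
        rw [hF] at hq
        obtain ⟨g1, g2, g3, g4⟩ := Finset.mem_filter.1 hq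
        exact Finset.mem_filter.2 ⟨g1, g2, g4⟩
      have h8 : ((F k).card : ℝ) ≤ (blk (fun q => Bb ≤ b q) (M / k) : ℝ) := by exact_mod_cast h7
      refine h8.trans (h6.trans ?_)
      rw [mul_assoc (C0 * Real.exp (-(((1 - ι) * Bb) ^ a)))]
      refine mul_le_mul_of_nonneg_left ?_ (by positivity)
      have h9 : uB * Real.log x ≤ Real.log ((M / k : ℕ) : ℝ) := by
        rw [← Real.log_rpow (by positivity)]
        exact Real.log_le_log (by positivity) hy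
      have h10 : ((M / k : ℕ) : ℝ) ≤ (M : ℝ) / k := Nat.cast_div_le
      calc ((M / k : ℕ) : ℝ) / Real.log ((M / k : ℕ) : ℝ) ≤ ((M : ℝ) / k) / (uB * Real.log x) := by
            apply div_le_div₀ (by positivity) h10 (by positivity) h9
        _ = M / (uB * Real.log x) * (1 / k) := by
            field_simp
  calc ((MsSet x M1 uB Bb b M).card : ℝ)
      ≤ ((((Finset.Icc 1 M1).biUnion (fun k => (F k).image (fun l => k * l))).card : ℕ) : ℝ) := by
        exact_mod_cast Finset.card_le_card hsub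
    _ ≤ ((∑ k ∈ Finset.Icc 1 M1, ((F k).image (fun l => k * l)).card : ℕ) : ℝ) := by
        exact_mod_cast Finset.card_biUnion_le
    _ ≤ ∑ k ∈ Finset.Icc 1 M1, ((F k).card : ℝ) := by
        push_cast
        exact Finset.sum_le_sum (fun k _ => by exact_mod_cast Finset.card_image_le)
    _ ≤ ∑ k ∈ Finset.Icc 1 M1,
        C0 * Real.exp (-(((1 - ι) * Bb) ^ a)) * (M / (uB * Real.log x)) * (1 / k) :=
        Finset.sum_le_sum hFk
    _ = C0 * Real.exp (-(((1 - ι) * Bb) ^ a)) * (M / (uB * Real.log x)) *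
        ∑ k ∈ Finset.Icc 1 M1, (1 : ℝ) / k := by rw [Finset.mul_sum]
    _ ≤ C0 * Real.exp (-(((1 - ι) * Bb) ^ a)) * (M / (uB * Real.log x)) * (1 + Real.log M1) :=
        mul_le_mul_of_nonneg_left (sum_inv_le M1) (by positivity)
    _ = _ := by ring

open Classical in
/-- the primes `q` in `(X/(4M), 2X/M]` with `b q ≥ Ba` -/
def ESet (X Ba : ℝ) (b : ℕ → ℝ) (M : ℕ) : Finset ℕ :=
  (Finset.range (⌊2 * (X / M)⌋₊ + 1)).filter (fun q => q.Prime ∧ Ba ≤ b q ∧ X / (4 * M) < q ∧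
    (q : ℝ) ≤ 2 * (X / M))

theorem card_ESet_le (h2 : Cover3) {x a M : ℕ} {C0 ρ ι uB Ba X : ℝ} {b : ℕ → ℝ}
    (hc : Cst a C0 ρ ι)
    (ht : Tail x a C0 ρ ι uB b) (hB : 0 < Ba) (hM4 : 4 ≤ M) (hu : 0 < uB) (hu' : uB ≤ 1 / 40)
    (hx : 2 ^ 20 ≤ x) (hXx : X ≤ x) (hY : (x : ℝ) ^ ((7 : ℝ) / 20) ≤ X / M) :
    ((ESet X Ba b M).card : ℝ) ≤
      14 * C0 * Real.exp (-(((1 - ι) * Ba) ^ a)) * (X / M) / Real.log x := by
  classical
  have hC0 := hc.hC0
  have hx1 : (1 : ℝ) ≤ x := by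
    have : (1 : ℕ) ≤ x := le_trans (by norm_num) hx
    exact_mod_cast this
  have hx0 : (0 : ℝ) < x := by linarith only [hu, hu', hx1]
  have hL : 0 < Real.log x := by
    apply Real.log_pos
    have : (1 : ℕ) < x := lt_of_lt_of_le (by norm_num) hx
    exact_mod_cast this
  set Y : ℝ := X / M with hYdef
  -- t = x^(1/20) ≥ 2
  set t : ℝ := (x : ℝ) ^ ((1 : ℝ) / 20) with ht0
  have ht2 : 2 ≤ t := by
    have h1 : ((2 : ℝ) ^ (20 : ℕ)) ≤ x := by exact_mod_cast hx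
    have h3 : (2 : ℝ) = ((2 : ℝ) ^ (20 : ℕ)) ^ ((1 : ℝ) / 20) := by
      rw [← Real.rpow_natCast, ← Real.rpow_mul (by norm_num)]
      norm_num
    rw [h3, ht0]
    exact Real.rpow_le_rpow (by norm_num) h1 (by norm_num)
  have ht7 : (x : ℝ) ^ ((7 : ℝ) / 20) = t ^ 7 := by
    rw [ht0, ← Real.rpow_natCast, ← Real.rpow_mul hx0.le]
    norm_num
  have ht5 : (x : ℝ) ^ ((1 : ℝ) / 4) = t ^ 5 := by
    rw [ht0, ← Real.rpow_natCast, ← Real.rpow_mul hx0.le]
    norm_num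
  have hY7 : t ^ 7 ≤ Y := by rw [← ht7]; exact hY
  have h25 : (32 : ℝ) ≤ t ^ 5 := by
    calc (32 : ℝ) = 2 ^ 5 := by norm_num
      _ ≤ t ^ 5 := pow_le_pow_left₀ (by norm_num) ht2 5
  have h75 : 4 * t ^ 5 ≤ t ^ 7 := by
    have h1 : (4 : ℝ) ≤ t ^ 2 := by nlinarith only [ht2]
    have h3 : t ^ 7 = t ^ 5 * t ^ 2 := by ring
    rw [h3]
    nlinarith only [h1, hu, hu', h25]
  have hY8 : 8 ≤ Y := by linarith only [hu, hu', hY, ht7, h25, h75]
  have hcov := h2 (fun q => Ba ≤ b q) Y (ESet X Ba b M) hY8 (by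
    intro q hq
    unfold ESet at hq
    obtain ⟨_, g1, g2, g3, g4⟩ := Finset.mem_filter.1 hq
    refine ⟨g1, g2, ?_, g4⟩
    have : X / (4 * (M : ℝ)) = Y / 4 := by rw [hYdef, div_div, mul_comm]
    linarith only [g3, this])
  -- each block
  have hblk : ∀ y : ℕ, (x : ℝ) ^ ((1 : ℝ) / 4) ≤ y → y < x →
      (blk (fun q => Ba ≤ b q) y : ℝ) ≤
        C0 * Real.exp (-(((1 - ι) * Ba) ^ a)) * (4 * y / Real.log x) := by
    intro y hy hyx
    have hy' : (x : ℝ) ^ uB ≤ y :=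
      (Real.rpow_le_rpow_of_exponent_le hx1 (by linarith only [hu, hu'])).trans hy
    have hy1 : 1 < y := by
      have : (1 : ℝ) < y := by rw [ht5] at hy; linarith only [hu, hu', h25, hy]
      exact_mod_cast this
    have h6 := tail_simple hc ht hy' hyx hy1 hB
    refine h6.trans (mul_le_mul_of_nonneg_left ?_ (by positivity))
    have h9 : (1 / 4) * Real.log x ≤ Real.log (y : ℝ) := by
      rw [← Real.log_rpow hx0]
      exact Real.log_le_log (by positivity) hy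
    rw [div_le_div_iff₀ (by linarith only [hL, h9]) hL]
    have hy0 : (0 : ℝ) ≤ y := Nat.cast_nonneg y
    nlinarith only [h9]
  have hfl : (⌊2 * Y⌋₊ : ℝ) ≤ 2 * Y := Nat.floor_le (by linarith only [hu, hu', hY, ht7, h25, h75])
  have hfl' : 2 * Y < (⌊2 * Y⌋₊ : ℝ) + 1 := Nat.lt_floor_add_one _
  have hltx : ⌊2 * Y⌋₊ < x := by
    have hM4' : (4 : ℝ) ≤ M := by exact_mod_cast hM4
    have h1 : 2 * Y ≤ x / 2 := by
      rw [hYdef]
      have : X / (M : ℝ) ≤ x / 4 := by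
        rw [div_le_div_iff₀ (by linarith only [hu, hu', hM4']) (by norm_num)]
        nlinarith only [hXx, hM4']
      linarith only [this]
    have h3 : (⌊2 * Y⌋₊ : ℝ) < x := by linarith only [hu, hu', hY, ht7, h25, h75, hfl, h1]
    exact_mod_cast h3
  have hq1 : (⌊2 * Y⌋₊ : ℝ) ≤ 4 * ((⌊2 * Y⌋₊ / 4 : ℕ) : ℝ) + 3 := by
    have : ⌊2 * Y⌋₊ ≤ 4 * (⌊2 * Y⌋₊ / 4) + 3 := by omega
    exact_mod_cast this
  have hbig : (x : ℝ) ^ ((1 : ℝ) / 4) ≤ ((⌊2 * Y⌋₊ / 4 : ℕ) : ℝ) := by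
    rw [ht5]
    linarith only [hu, hu', hY, ht7, h25, h75, hfl', hq1]
  have hle1 : ((⌊2 * Y⌋₊ / 4 : ℕ) : ℝ) ≤ ((⌊2 * Y⌋₊ / 2 : ℕ) : ℝ) := by
    have : ⌊2 * Y⌋₊ / 4 ≤ ⌊2 * Y⌋₊ / 2 := by omega
    exact_mod_cast this
  have hle2 : ((⌊2 * Y⌋₊ / 2 : ℕ) : ℝ) ≤ (⌊2 * Y⌋₊ : ℝ) := by
    have : ⌊2 * Y⌋₊ / 2 ≤ ⌊2 * Y⌋₊ := by omega
    exact_mod_cast this
  have b1 := hblk _ (hbig.trans (hle1.trans hle2)) hltx
  have b2 := hblk _ (hbig.trans hle1) (by omega)
  have b3 := hblk _ hbig (by omega)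
  have hd2 : ((⌊2 * Y⌋₊ / 2 : ℕ) : ℝ) ≤ Y := by
    have : ((⌊2 * Y⌋₊ / 2 : ℕ) : ℝ) ≤ (⌊2 * Y⌋₊ : ℝ) / 2 := by
      have := @Nat.cast_div_le ℝ _ _ _ ⌊2 * Y⌋₊ 2
      simpa using this
    linarith only [hfl, this]
  have hd4 : ((⌊2 * Y⌋₊ / 4 : ℕ) : ℝ) ≤ Y / 2 := by
    have : ((⌊2 * Y⌋₊ / 4 : ℕ) : ℝ) ≤ (⌊2 * Y⌋₊ : ℝ) / 4 := by
      have := @Nat.cast_div_le ℝ _ _ _ ⌊2 * Y⌋₊ 4
      simpa using this
    linarith only [hfl, this]
  have hcov' : ((ESet X Ba b M).card : ℝ) ≤ (blk (fun q => Ba ≤ b q) ⌊2 * Y⌋₊ : ℝ) +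
      (blk (fun q => Ba ≤ b q) (⌊2 * Y⌋₊ / 2) : ℝ) +
      (blk (fun q => Ba ≤ b q) (⌊2 * Y⌋₊ / 4) : ℝ) := by exact_mod_cast hcov
  set e : ℝ := Real.exp (-(((1 - ι) * Ba) ^ a)) with he
  have he0 : 0 < e := Real.exp_pos _
  calc ((ESet X Ba b M).card : ℝ) ≤ C0 * e * (4 * (⌊2 * Y⌋₊ : ℝ) / Real.log x) +
        C0 * e * (4 * ((⌊2 * Y⌋₊ / 2 : ℕ) : ℝ) / Real.log x) +
        C0 * e * (4 * ((⌊2 * Y⌋₊ / 4 : ℕ) : ℝ) / Real.log x) := by linarith only [hcov', b1, b2, b3]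
    _ = C0 * e * (4 * ((⌊2 * Y⌋₊ : ℝ) + ((⌊2 * Y⌋₊ / 2 : ℕ) : ℝ) + ((⌊2 * Y⌋₊ / 4 : ℕ) : ℝ)) /
        Real.log x) := by ring
    _ ≤ C0 * e * (4 * (2 * Y + Y + Y / 2) / Real.log x) := by
        refine mul_le_mul_of_nonneg_left ?_ (by positivity)
        refine div_le_div_of_nonneg_right ?_ hL.le
        linarith only [hfl, hd2, hd4]
    _ = _ := by ring


theorem two_le_rpow {x : ℕ} (hx : 2 ^ 20 ≤ x) : 2 ≤ (x : ℝ) ^ ((1 : ℝ) / 20) := by
  have h1 : ((2 : ℝ) ^ (20 : ℕ)) ≤ x := by exact_mod_cast hx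
  have h3 : (2 : ℝ) = ((2 : ℝ) ^ (20 : ℕ)) ^ ((1 : ℝ) / 20) := by
    rw [← Real.rpow_natCast, ← Real.rpow_mul (by norm_num)]
    norm_num
  calc (2 : ℝ) = ((2 : ℝ) ^ (20 : ℕ)) ^ ((1 : ℝ) / 20) := h3
    _ ≤ (x : ℝ) ^ ((1 : ℝ) / 20) := Real.rpow_le_rpow (by norm_num) h1 (by norm_num)

theorem oneSide (h2 : Cover3) {a : ℕ} {C0 ρ ι : ℝ} (hc : Cst a C0 ρ ι) {A A' C x M1 : ℕ}
    {N : Finset ℕ} {X D uB : ℝ} {b : ℕ → ℝ} {z δ : ℝ}
    (hT : TH x A A' C M1 N X D a C0 ρ ι uB b z δ)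
    (hx : 2 ^ 20 ≤ x) (hs1 : 1 ≤ ll x) (hsA : (ll x) ^ A' ≤ (1 / 20) * Real.log x)
    {Ba Bb : ℝ} (ha : 0 < Ba) (hb : 0 < Bb) (haz : Ba ≤ z) (S : Finset ℕ) (hSN : S ⊆ N)
    (hS : ∀ n ∈ S, ∃ k l q : ℕ, l.Prime ∧ q.Prime ∧ n = k * l * q ∧ k ≤ M1 ∧
      (x : ℝ) ^ uB ≤ l ∧ (l : ℝ) ≤ (x : ℝ) ^ ((1 : ℝ) / 2) ∧ Ba ≤ b q ∧ Bb ≤ b l) :
    (S.card : ℝ) ≤ 28 * C0 * (ll x) ^ C * X * (x : ℝ) ^ (-uB) +
      28 * C0 ^ 2 * (Real.exp (-(((1 - ι) * Ba) ^ a)) * Real.exp (-(((1 - ι) * Bb) ^ a))) *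
        X * D * (ll x) ^ C * ((2 + (ll x) ^ A') * (ll x) ^ A') / Real.log x := by
  classical
  have hC0 := hc.hC0
  have hι := hc.hι
  have hι' := hc.hι'
  have hx1n : 1 < x := lt_of_lt_of_le (by norm_num) hx
  have hx1 : (1 : ℝ) < x := by exact_mod_cast hx1n
  have hx0 : (0 : ℝ) < x := by linarith only [hι, hι', hx1]
  have hL : 0 < Real.log x := Real.log_pos hx1
  have hs0 : 0 < ll x := by linarith
  have hsA0 : 0 < (ll x) ^ A' := pow_pos hs0 _
  have hsC0 : 0 < (ll x) ^ C := pow_pos hs0 _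
  have hu : 0 < uB := lt_of_lt_of_le (by positivity) hT.huB
  have hu' := hT.huB'
  have hM1e : Real.exp 1 ≤ M1 := hT.M1ge
  have he2 : (2 : ℝ) < Real.exp 1 := by
    have := Real.exp_one_gt_d9
    linarith only [hu, hu', this]
  have hM1pos : (0 : ℝ) < M1 := lt_of_lt_of_le (Real.exp_pos _) hM1e
  have hxu : 2 < (x : ℝ) ^ uB := lt_of_lt_of_le he2 (hM1e.trans hT.uBM)
  have hD := hT.D0
  have hXx := hT.Xle
  have hXlow := hT.leX
  have hX0 : 0 < X := lt_of_lt_of_le (by positivity) hXlow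
  have hXlow' : (x : ℝ) ^ ((19 : ℝ) / 20) ≤ X := by
    refine le_trans ?_ hXlow
    have h1 : (x : ℝ) ^ ((19 : ℝ) / 20) = x * (x : ℝ) ^ (-((1 : ℝ) / 20)) := by
      nth_rewrite 2 [← Real.rpow_one (x : ℝ)]
      rw [← Real.rpow_add hx0]
      norm_num
    rw [h1]
    refine mul_le_mul_of_nonneg_left ?_ hx0.le
    rw [Real.rpow_def_of_pos hx0]
    refine Real.exp_le_exp.2 ?_
    linarith only [hsA]
  have ht2 := two_le_rpow hx
  set ea : ℝ := Real.exp (-(((1 - ι) * Ba) ^ a)) with hea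
  set eb : ℝ := Real.exp (-(((1 - ι) * Bb) ^ a)) with heb
  have hea0 : 0 < ea := Real.exp_pos _
  have heb0 : 0 < eb := Real.exp_pos _
  have hea1 : ea ≤ 1 := by
    rw [hea]
    refine Real.exp_le_one_iff.2 (neg_nonpos.2 (pow_nonneg (mul_nonneg (by linarith only [hι', hu, hu']) ha.le) _))
  set J : Finset ℕ := (Finset.range (Nat.log 2 x + 1)).filter
    (fun j => (x : ℝ) ^ uB ≤ (2 : ℝ) ^ j ∧ (2 : ℝ) ^ j ≤ (x : ℝ) ^ ((3 : ℝ) / 5)) with hJ
  set F : ℕ → Finset ℕ := fun j => S.filter (fun n => ∃ m q : ℕ, m ∈ MsSet x M1 uB Bb b (2 ^ j) ∧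
    q ∈ ESet X Ba b (2 ^ j) ∧ n = m * q) with hF
  have hcover : S ⊆ J.biUnion F := by
    intro n hn
    obtain ⟨k, l, q, hl, hq, hnk, hk, hlu, hlx, hbq, hbl⟩ := hS n hn
    obtain ⟨hr1, hr2⟩ := hT.adm.rng n (hSN hn)
    have hn0 : (0 : ℝ) < n := by linarith only [hX0, hr1]
    have hn0' : 0 < n := by exact_mod_cast hn0
    have hk1 : 1 ≤ k := by
      rcases Nat.eq_zero_or_pos k with h | h
      · rw [h] at hnk; simp at hnk; omega
      · exact h
    set m : ℕ := k * l with hm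
    have hl2 := hl.two_le
    have hml : l ≤ m := by rw [hm]; nlinarith only [hk1]
    have hm2 : 1 < m := by omega
    set j : ℕ := Nat.clog 2 m with hj
    have hj1 : m ≤ 2 ^ j := Nat.le_pow_clog (by norm_num) m
    have hj2 : 2 ^ (j - 1) < m := Nat.pow_pred_clog_lt_self (by norm_num) hm2
    have hjpos : 1 ≤ j := by
      rcases Nat.eq_zero_or_pos j with h | h
      · rw [h] at hj1; omega
      · exact h
    have hj3 : 2 ^ j = 2 * 2 ^ (j - 1) := by
      rw [← pow_succ']; congr 1; omega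
    have hj4 : 2 ^ j < 2 * m := by omega
    have hj4' : (2 : ℝ) ^ j < 2 * m := by exact_mod_cast hj4
    have hj1' : (m : ℝ) ≤ (2 : ℝ) ^ j := by exact_mod_cast hj1
    have hA1 : (x : ℝ) ^ uB ≤ (2 : ℝ) ^ j := by
      refine hlu.trans (le_trans ?_ hj1')
      exact_mod_cast hml
    have hA2 : (2 : ℝ) ^ j ≤ (x : ℝ) ^ ((3 : ℝ) / 5) := by
      have h1 : (m : ℝ) ≤ (x : ℝ) ^ uB * (x : ℝ) ^ ((1 : ℝ) / 2) := by
        rw [hm]
        push_cast
        refine mul_le_mul ?_ hlx (by positivity) (by positivity)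
        exact le_trans (by exact_mod_cast hk) hT.uBM
      have h3 : (x : ℝ) ^ uB ≤ (x : ℝ) ^ ((1 : ℝ) / 40) :=
        Real.rpow_le_rpow_of_exponent_le hx1.le hu'
      have h4 : (x : ℝ) ^ ((1 : ℝ) / 20) * ((x : ℝ) ^ ((1 : ℝ) / 40) * (x : ℝ) ^ ((1 : ℝ) / 2)) ≤
          (x : ℝ) ^ ((3 : ℝ) / 5) := by
        rw [← Real.rpow_add hx0, ← Real.rpow_add hx0]
        exact Real.rpow_le_rpow_of_exponent_le hx1.le (by norm_num)
      have h5 : (0 : ℝ) < (x : ℝ) ^ ((1 : ℝ) / 2) := by positivity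
      have h6 : (0 : ℝ) < (x : ℝ) ^ ((1 : ℝ) / 40) := by positivity
      calc (2 : ℝ) ^ j ≤ 2 * m := hj4'.le
        _ ≤ 2 * ((x : ℝ) ^ uB * (x : ℝ) ^ ((1 : ℝ) / 2)) := by linarith only [h1]
        _ ≤ 2 * ((x : ℝ) ^ ((1 : ℝ) / 40) * (x : ℝ) ^ ((1 : ℝ) / 2)) := by
            have := mul_le_mul_of_nonneg_right h3 h5.le
            linarith only [this]
        _ ≤ (x : ℝ) ^ ((1 : ℝ) / 20) * ((x : ℝ) ^ ((1 : ℝ) / 40) * (x : ℝ) ^ ((1 : ℝ) / 2)) :=
            mul_le_mul_of_nonneg_right ht2 (by positivity)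
        _ ≤ _ := h4
    have hjx : 2 ^ j ≤ x := by
      have h1 : (2 : ℝ) ^ j ≤ x := hA2.trans (by
        calc (x : ℝ) ^ ((3 : ℝ) / 5) ≤ (x : ℝ) ^ (1 : ℝ) :=
              Real.rpow_le_rpow_of_exponent_le hx1.le (by norm_num)
          _ = x := Real.rpow_one _)
      exact_mod_cast h1
    rw [Finset.mem_biUnion]
    refine ⟨j, ?_, ?_⟩
    · rw [hJ]
      refine Finset.mem_filter.2 ⟨Finset.mem_range.2 ?_, hA1, hA2⟩
      have := Nat.le_log_of_pow_le (by norm_num : 1 < 2) hjx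
      omega
    · rw [hF]
      refine Finset.mem_filter.2 ⟨hn, m, q, ?_, ?_, hnk⟩
      · unfold MsSet
        refine Finset.mem_filter.2 ⟨Finset.mem_Ioc.2 ⟨?_, hj1⟩, k, l, hm, hl, hk1, hk, hlu, hbl⟩
        omega
      · unfold ESet
        have hq0 : (0 : ℝ) < q := by exact_mod_cast hq.pos
        have hnR : (n : ℝ) = m * q := by rw [hnk]; push_cast; ring
        have hM0 : (0 : ℝ) < (2 : ℝ) ^ j := by positivity
        have hup : (q : ℝ) ≤ 2 * (X / ((2 ^ j : ℕ) : ℝ)) := by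
          push_cast
          rw [← mul_div_assoc, le_div_iff₀ hM0]
          calc (q : ℝ) * 2 ^ j ≤ q * (2 * m) := mul_le_mul_of_nonneg_left hj4'.le hq0.le
            _ = 2 * (m * q) := by ring
            _ = 2 * n := by rw [hnR]
            _ ≤ 2 * X := by linarith only [hr2]
        refine Finset.mem_filter.2 ⟨Finset.mem_range.2 ?_, hq, hbq, ?_, hup⟩
        · exact Nat.lt_succ_of_le (Nat.le_floor hup)
        · push_cast
          rw [div_lt_iff₀ (by positivity)]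
          have : (m : ℝ) * q ≤ 2 ^ j * q := mul_le_mul_of_nonneg_right hj1' hq0.le
          linarith only [hr1, hnR, this]
  have hterm : ∀ j ∈ J, ((F j).card : ℝ) ≤ 14 * C0 * X / Real.log x *
      ((ll x) ^ C * (x : ℝ) ^ (-uB) +
        ea * (C0 * eb * ((2 + (ll x) ^ A') * (ll x) ^ A') / Real.log x * D * (ll x) ^ C)) := by
    intro j hj
    rw [hJ] at hj
    obtain ⟨_, hA1, hA2⟩ := Finset.mem_filter.1 hj
    have hj2 : 2 ≤ j := by
      by_contra hcon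
      have : j ≤ 1 := by omega
      have h1 : (2 : ℝ) ^ j ≤ 2 ^ 1 := pow_le_pow_right₀ (by norm_num) this
      have h3 : (2 : ℝ) < 2 ^ j := hxu.trans_le hA1
      norm_num at h1
      linarith only [hxu, hA1, h1]
    have hM4 : 4 ≤ 2 ^ j := by
      calc 4 = 2 ^ 2 := by norm_num
        _ ≤ 2 ^ j := Nat.pow_le_pow_right (by norm_num) hj2
    have hMR0 : (0 : ℝ) < (2 : ℝ) ^ j := by positivity
    have hMx : 2 ^ j < x := by
      have h1 : (2 : ℝ) ^ j < x := hA2.trans_lt (by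
        calc (x : ℝ) ^ ((3 : ℝ) / 5) < (x : ℝ) ^ (1 : ℝ) :=
              Real.rpow_lt_rpow_of_exponent_lt hx1 (by norm_num)
          _ = x := Real.rpow_one _)
      exact_mod_cast h1
    have hY : (x : ℝ) ^ ((7 : ℝ) / 20) ≤ X / ((2 ^ j : ℕ) : ℝ) := by
      push_cast
      rw [le_div_iff₀ hMR0]
      calc (x : ℝ) ^ ((7 : ℝ) / 20) * 2 ^ j ≤ (x : ℝ) ^ ((7 : ℝ) / 20) * (x : ℝ) ^ ((3 : ℝ) / 5) :=
            mul_le_mul_of_nonneg_left hA2 (by positivity)
        _ = (x : ℝ) ^ ((19 : ℝ) / 20) := by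
            rw [← Real.rpow_add hx0]; norm_num
        _ ≤ X := hXlow'
    have hE := card_ESet_le h2 hc hT.tail ha hM4 hu hu' hx hXx hY
    have hMs := card_MsSet_le (M1 := M1) hc hT.tail hb hMx hu hx1n hxu
    rw [← hea] at hE
    rw [← heb] at hMs
    have hmu : Real.exp (-(ll x) ^ A) ≤ 14 * C0 * ea := by
      have h1 : Real.exp (-(ll x) ^ A) ≤ ea := by
        rw [hea]
        refine Real.exp_le_exp.2 (neg_le_neg ?_)
        have hz := hT.hz
        have h3 : ((1 - ι) * Ba) ^ a ≤ z ^ a := by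
          refine pow_le_pow_left₀ (mul_nonneg (by linarith only [hι', hu, hu']) ha.le) ?_ a
          nlinarith only [haz, ha, hι]
        have h4 : z ^ a ≤ ((a : ℝ) + 1) * z ^ a := by
          have h5 : (0 : ℝ) ≤ z ^ a := by positivity
          have h6 : (0 : ℝ) ≤ (a : ℝ) := Nat.cast_nonneg a
          nlinarith only [h5]
        exact h3.trans (h4.trans hT.hzA)
      nlinarith only [hea0, h1, hC0]
    have hsml := hT.adm.sml (2 ^ j) (14 * C0 * ea) (MsSet x M1 uB Bb b (2 ^ j))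
      (ESet X Ba b (2 ^ j)) (F j) (by omega) (by push_cast; exact hA2)
      (by
        intro m hm
        unfold MsSet at hm
        obtain ⟨h1, _⟩ := Finset.mem_filter.1 hm
        exact Finset.mem_Ioc.1 h1) hmu
      (by
        intro q hq
        unfold ESet at hq
        obtain ⟨_, g1, _, g3, g4⟩ := Finset.mem_filter.1 hq
        exact ⟨g1, g3, g4⟩) hE
      ((Finset.filter_subset _ _).trans hSN)
      (by
        intro n hn
        rw [hF] at hn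
        exact (Finset.mem_filter.1 hn).2)
    push_cast at hsml hMs
    have hlogM1 : Real.log M1 ≤ 1 + (ll x) ^ A' := by
      have h1 : (M1 : ℝ) ≤ Real.exp (1 + (ll x) ^ A') := by
        refine hT.M1le.trans ?_
        rw [Real.exp_add]
        have h3 : 1 ≤ Real.exp ((ll x) ^ A') := Real.one_le_exp hsA0.le
        nlinarith only [h3, hu, he2, hu']
      calc Real.log M1 ≤ Real.log (Real.exp (1 + (ll x) ^ A')) := Real.log_le_log hM1pos h1
        _ = _ := Real.log_exp _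
    have hinv : 1 / uB ≤ (ll x) ^ A' := by
      rw [div_le_iff₀ hu]
      have := hT.huB
      rw [div_le_iff₀ hsA0] at this
      linarith only [this]
    have hMs' : ((MsSet x M1 uB Bb b (2 ^ j)).card : ℝ) ≤
        C0 * eb * ((2 + (ll x) ^ A') * (ll x) ^ A') / Real.log x * 2 ^ j := by
      refine hMs.trans ?_
      have h1 : (2 : ℝ) ^ j * (1 + Real.log M1) / (uB * Real.log x) =
          (1 + Real.log M1) * (1 / uB) * (2 ^ j / Real.log x) := by
        field_simp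
      rw [h1]
      have h3 : (1 + Real.log M1) * (1 / uB) ≤ (2 + (ll x) ^ A') * (ll x) ^ A' :=
        mul_le_mul (by linarith only [hlogM1]) hinv (by positivity) (by positivity)
      calc C0 * eb * ((1 + Real.log M1) * (1 / uB) * (2 ^ j / Real.log x)) ≤
          C0 * eb * (((2 + (ll x) ^ A') * (ll x) ^ A') * (2 ^ j / Real.log x)) := by
            refine mul_le_mul_of_nonneg_left (mul_le_mul_of_nonneg_right h3 (by positivity))
              (by positivity)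
        _ = _ := by ring
    have hinvM : (1 : ℝ) / 2 ^ j ≤ (x : ℝ) ^ (-uB) := by
      rw [Real.rpow_neg hx0.le, ← one_div]
      exact one_div_le_one_div_of_le (by positivity) hA1
    refine hsml.trans ?_
    have hW : 14 * C0 * ea * (X / (2 ^ j * Real.log x)) * ((ll x) ^ C +
        ((MsSet x M1 uB Bb b (2 ^ j)).card : ℝ) * D * (ll x) ^ C) =
        14 * C0 * X / Real.log x * (ea * ((ll x) ^ C * (1 / 2 ^ j)) +
          ea * (((MsSet x M1 uB Bb b (2 ^ j)).card : ℝ) * (1 / 2 ^ j) * D * (ll x) ^ C)) := by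
      field_simp
    rw [hW]
    refine mul_le_mul_of_nonneg_left ?_ (by positivity)
    have g1 : ea * ((ll x) ^ C * (1 / 2 ^ j)) ≤ (ll x) ^ C * (x : ℝ) ^ (-uB) := by
      calc ea * ((ll x) ^ C * (1 / 2 ^ j)) ≤ 1 * ((ll x) ^ C * (1 / 2 ^ j)) :=
            mul_le_mul_of_nonneg_right hea1 (by positivity)
        _ = (ll x) ^ C * (1 / 2 ^ j) := one_mul _
        _ ≤ _ := mul_le_mul_of_nonneg_left hinvM hsC0.le
    have g2 : ((MsSet x M1 uB Bb b (2 ^ j)).card : ℝ) * (1 / 2 ^ j) ≤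
        C0 * eb * ((2 + (ll x) ^ A') * (ll x) ^ A') / Real.log x := by
      rw [mul_one_div, div_le_iff₀ hMR0]
      exact hMs'
    have g3 : ea * (((MsSet x M1 uB Bb b (2 ^ j)).card : ℝ) * (1 / 2 ^ j) * D * (ll x) ^ C) ≤
        ea * (C0 * eb * ((2 + (ll x) ^ A') * (ll x) ^ A') / Real.log x * D * (ll x) ^ C) :=
      mul_le_mul_of_nonneg_left (mul_le_mul_of_nonneg_right (mul_le_mul_of_nonneg_right g2 hD)
        hsC0.le) hea0.le
    linarith only [g1, g3]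
  have hJcard : (J.card : ℝ) ≤ 2 * Real.log x := by
    have h1 : J.card ≤ Nat.log 2 x + 1 := by
      rw [hJ]
      refine (Finset.card_filter_le _ _).trans ?_
      rw [Finset.card_range]
    have h3 : (2 : ℝ) ^ (Nat.log 2 x) ≤ x := by
      exact_mod_cast Nat.pow_log_le_self 2 (by omega)
    have h4 : (Nat.log 2 x : ℝ) * Real.log 2 ≤ Real.log x := by
      rw [← Real.log_pow]
      exact Real.log_le_log (by positivity) h3
    have h5 := Real.log_two_gt_d9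
    have h6 : 20 * Real.log 2 ≤ Real.log x := by
      have : Real.log ((2 : ℝ) ^ 20) ≤ Real.log x :=
        Real.log_le_log (by positivity) (by exact_mod_cast hx)
      rw [Real.log_pow] at this
      push_cast at this
      exact this
    have h7 : (J.card : ℝ) ≤ (Nat.log 2 x : ℝ) + 1 := by exact_mod_cast h1
    have h8 : (0 : ℝ) ≤ (Nat.log 2 x : ℝ) := Nat.cast_nonneg _
    nlinarith only [hu, hu', h4, h5, h6, h7]
  have hsum : (S.card : ℝ) ≤ ∑ j ∈ J, ((F j).card : ℝ) := by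
    have h1 : S.card ≤ ∑ j ∈ J, (F j).card :=
      (Finset.card_le_card hcover).trans Finset.card_biUnion_le
    exact_mod_cast h1
  refine hsum.trans ((Finset.sum_le_sum hterm).trans ?_)
  rw [Finset.sum_const, nsmul_eq_mul]
  have hT0 : 0 ≤ 14 * C0 * X / Real.log x *
      ((ll x) ^ C * (x : ℝ) ^ (-uB) +
        ea * (C0 * eb * ((2 + (ll x) ^ A') * (ll x) ^ A') / Real.log x * D * (ll x) ^ C)) := by
    positivity
  refine (mul_le_mul_of_nonneg_right hJcard hT0).trans (le_of_eq ?_)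
  field_simp
  ring

theorem typeB2b (_h1 : LM) (h2 : Cover3) : TypeB2b := by
  classical
  intro a C0 ρ ι hc A A' C
  have hC0 := hc.hC0
  obtain ⟨X1, hX1⟩ := ll_pow_le A' (1 / 20) (by norm_num)
  obtain ⟨X2, hX2⟩ := ll_pow_le C (1 / (56 * C0)) (by positivity)
  obtain ⟨X3, hX3⟩ := ll_pow_le (A' + 1) (1 / 2) (by norm_num)
  obtain ⟨X4, hX4⟩ := ll_pow_le (C + A' + A') (1 / (168 * Real.exp ((ρ / 2) ^ a))) (by positivity)
  refine ⟨max (2 ^ 20) (max X1 (max X2 (max X3 X4))), ?_⟩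
  intro x M1 N X D uB b z δ S hxX hT hSN hS
  have hx : 2 ^ 20 ≤ x := (le_max_left _ _).trans hxX
  have hxX' := (le_max_right _ _).trans hxX
  have g1 := hX1 x ((le_max_left _ _).trans hxX')
  have hxX'' := (le_max_right _ _).trans hxX'
  have g2 := hX2 x ((le_max_left _ _).trans hxX'')
  have hxX3 := (le_max_right _ _).trans hxX''
  have g3 := hX3 x ((le_max_left _ _).trans hxX3)
  have g4 := hX4 x ((le_max_right _ _).trans hxX3)
  have hx1n : 1 < x := lt_of_lt_of_le (by norm_num) hx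
  have hx1 : (1 : ℝ) < x := by exact_mod_cast hx1n
  have hx0 : (0 : ℝ) < x := by linarith only [hx1]
  have hL : 0 < Real.log x := Real.log_pos hx1
  have hLbig : 20 * Real.log 2 ≤ Real.log x := by
    have : Real.log ((2 : ℝ) ^ 20) ≤ Real.log x :=
      Real.log_le_log (by positivity) (by exact_mod_cast hx)
    rw [Real.log_pow] at this
    push_cast at this
    exact this
  have hs1 : 1 ≤ ll x := by
    unfold ll
    rw [Real.le_log_iff_exp_le hL]
    have h5 := Real.log_two_gt_d9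
    have h6 := Real.exp_one_lt_d9
    linarith only [hLbig, h5, h6]
  have hs0 : 0 < ll x := by linarith only [hs1]
  have hsA0 : 0 < (ll x) ^ A' := pow_pos hs0 _
  have hsC0 : 0 < (ll x) ^ C := pow_pos hs0 _
  have hz := hT.hz
  have ha2 := hc.ha
  have hδ0 := hT.hδ
  have hδ1 : δ ≤ 1 / 100 := by
    refine hT.hδ'.trans ?_
    refine one_div_le_one_div_of_le (by norm_num) ?_
    have h1 : (1 : ℝ) ≤ (4 * z) ^ a := one_le_pow₀ (by linarith only [hz])
    have h3 : (2 : ℝ) ≤ (a : ℝ) := by exact_mod_cast ha2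
    nlinarith only [h3, h1]
  have hu : 0 < uB := lt_of_lt_of_le (by positivity) hT.huB
  have hX0 : 0 < X := lt_of_lt_of_le (by positivity) hT.leX
  have hD := hT.D0
  set S1 : Finset ℕ := S.filter (fun n => ∃ k l q : ℕ, l.Prime ∧ q.Prime ∧ n = k * l * q ∧ k ≤ M1 ∧
      (x : ℝ) ^ uB ≤ l ∧ (l : ℝ) ≤ (x : ℝ) ^ ((1 : ℝ) / 2) ∧ z - δ ≤ b q ∧ z / 2 ≤ b l) with hS1
  set S2 : Finset ℕ := S.filter (fun n => ∃ k l q : ℕ, l.Prime ∧ q.Prime ∧ n = k * l * q ∧ k ≤ M1 ∧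
      (x : ℝ) ^ uB ≤ l ∧ (l : ℝ) ≤ (x : ℝ) ^ ((1 : ℝ) / 2) ∧ z / 2 ≤ b q ∧ z - δ ≤ b l) with hS2
  have hcov : S ⊆ S1 ∪ S2 := by
    intro n hn
    obtain ⟨k, l, q, h1, h3, h4, h5, h6, h7, h8⟩ := hS n hn
    rw [Finset.mem_union]
    rcases h8 with h8 | h8
    · left
      exact Finset.mem_filter.2 ⟨hn, k, l, q, h1, h3, h4, h5, h6, h7, h8⟩
    · right
      exact Finset.mem_filter.2 ⟨hn, k, l, q, h1, h3, h4, h5, h6, h7, h8⟩
  have hb1 := oneSide h2 hc hT hx hs1 g1 (Ba := z - δ) (Bb := z / 2) (by linarith only [hz, hδ0, hδ1]) (by linarith only [hz, hδ0, hδ1])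
    (by linarith) S1 ((Finset.filter_subset _ _).trans hSN)
    (fun n hn => (Finset.mem_filter.1 hn).2)
  have hb2 := oneSide h2 hc hT hx hs1 g1 (Ba := z / 2) (Bb := z - δ) (by linarith only [hz, hδ0, hδ1]) (by linarith only [hz, hδ0, hδ1])
    (by linarith only [hz, hδ0, hδ1]) S2 ((Finset.filter_subset _ _).trans hSN)
    (fun n hn => (Finset.mem_filter.1 hn).2)
  have hcard : (S.card : ℝ) ≤ S1.card + S2.card := by
    have h1 : S.card ≤ S1.card + S2.card :=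
      (Finset.card_le_card hcov).trans (Finset.card_union_le _ _)
    exact_mod_cast h1
  have hEz : Real.exp (-(((1 - ι) * (z - δ)) ^ a)) * Real.exp (-(((1 - ι) * (z / 2)) ^ a)) =
      Ez a ρ ι δ z * Real.exp ((ρ / 2) ^ a) := by
    unfold Ez
    rw [← Real.exp_add, ← Real.exp_add]
    congr 1
    ring
  have hEz0 : 0 < Ez a ρ ι δ z := Real.exp_pos _
  have hEz' : Real.exp (-(((1 - ι) * (z / 2)) ^ a)) * Real.exp (-(((1 - ι) * (z - δ)) ^ a)) =
      Ez a ρ ι δ z * Real.exp ((ρ / 2) ^ a) := by rw [mul_comm, hEz]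
  rw [hEz] at hb1
  rw [hEz'] at hb2
  -- first part
  have k1 : 56 * C0 * (ll x) ^ C ≤ (x : ℝ) ^ (uB / 2) := by
    have h1 : 56 * C0 * (ll x) ^ C ≤ Real.log x := by
      have : (56 * C0) * (ll x) ^ C ≤ (56 * C0) * (1 / (56 * C0) * Real.log x) :=
        mul_le_mul_of_nonneg_left g2 (by positivity)
      calc 56 * C0 * (ll x) ^ C ≤ (56 * C0) * (1 / (56 * C0) * Real.log x) := this
        _ = Real.log x := by field_simp
    have h3 : Real.log x = Real.exp (ll x) := by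
      unfold ll
      rw [Real.exp_log hL]
    refine h1.trans ?_
    rw [Real.rpow_def_of_pos hx0]
    calc Real.log x = Real.exp (ll x) := h3
      _ ≤ Real.exp (Real.log x * (uB / 2)) := by
          refine Real.exp_le_exp.2 ?_
          have h5 : 1 ≤ uB * (ll x) ^ A' := by
            have := hT.huB
            rw [div_le_iff₀ hsA0] at this
            exact this
          have h6 : (ll x) ^ (A' + 1) = (ll x) ^ A' * ll x := pow_succ _ _
          rw [h6] at g3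
          have h7 : uB * ((ll x) ^ A' * ll x) ≤ uB * (1 / 2 * Real.log x) :=
            mul_le_mul_of_nonneg_left g3 hu.le
          have h8 : ll x ≤ uB * ((ll x) ^ A' * ll x) := by nlinarith only [h5, hs1]
          linarith only [h7, h8]
  have k2 : 56 * C0 * (ll x) ^ C * X * (x : ℝ) ^ (-uB) ≤ X * (x : ℝ) ^ (-(uB / 2)) := by
    have h1 : (x : ℝ) ^ (-(uB / 2)) = (x : ℝ) ^ (uB / 2) * (x : ℝ) ^ (-uB) := by
      rw [← Real.rpow_add hx0]
      congr 1
      ring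
    rw [h1]
    have h3 : (0 : ℝ) ≤ X * (x : ℝ) ^ (-uB) := by positivity
    calc 56 * C0 * (ll x) ^ C * X * (x : ℝ) ^ (-uB) =
        (56 * C0 * (ll x) ^ C) * (X * (x : ℝ) ^ (-uB)) := by ring
      _ ≤ (x : ℝ) ^ (uB / 2) * (X * (x : ℝ) ^ (-uB)) := mul_le_mul_of_nonneg_right k1 h3
      _ = _ := by ring
  -- second part
  have k3 : 56 * Real.exp ((ρ / 2) ^ a) * (ll x) ^ C * ((2 + (ll x) ^ A') * (ll x) ^ A') ≤
      Real.log x := by
    have h1 : (1 : ℝ) ≤ (ll x) ^ A' := one_le_pow₀ hs1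
    have h3 : (2 + (ll x) ^ A') * (ll x) ^ A' ≤ 3 * ((ll x) ^ A' * (ll x) ^ A') := by nlinarith only [hsA0, h1]
    have h5 : (ll x) ^ (C + A' + A') = (ll x) ^ C * ((ll x) ^ A' * (ll x) ^ A') := by
      rw [pow_add, pow_add]; ring
    rw [h5] at g4
    have hE0 : 0 < Real.exp ((ρ / 2) ^ a) := Real.exp_pos _
    calc 56 * Real.exp ((ρ / 2) ^ a) * (ll x) ^ C * ((2 + (ll x) ^ A') * (ll x) ^ A') ≤
        56 * Real.exp ((ρ / 2) ^ a) * (ll x) ^ C * (3 * ((ll x) ^ A' * (ll x) ^ A')) :=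
          mul_le_mul_of_nonneg_left h3 (by positivity)
      _ = (168 * Real.exp ((ρ / 2) ^ a)) * ((ll x) ^ C * ((ll x) ^ A' * (ll x) ^ A')) := by ring
      _ ≤ (168 * Real.exp ((ρ / 2) ^ a)) * (1 / (168 * Real.exp ((ρ / 2) ^ a)) * Real.log x) :=
          mul_le_mul_of_nonneg_left g4 (by positivity)
      _ = Real.log x := by field_simp
  have k4 : 56 * C0 ^ 2 * (Ez a ρ ι δ z * Real.exp ((ρ / 2) ^ a)) * X * D * (ll x) ^ C *
      ((2 + (ll x) ^ A') * (ll x) ^ A') / Real.log x ≤ D * X * C0 ^ 2 * Ez a ρ ι δ z := by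
    rw [div_le_iff₀ hL]
    calc 56 * C0 ^ 2 * (Ez a ρ ι δ z * Real.exp ((ρ / 2) ^ a)) * X * D * (ll x) ^ C *
        ((2 + (ll x) ^ A') * (ll x) ^ A') = (D * X * C0 ^ 2 * Ez a ρ ι δ z) *
        (56 * Real.exp ((ρ / 2) ^ a) * (ll x) ^ C * ((2 + (ll x) ^ A') * (ll x) ^ A')) := by ring
      _ ≤ (D * X * C0 ^ 2 * Ez a ρ ι δ z) * Real.log x :=
          mul_le_mul_of_nonneg_left k3 (by positivity)
  have hfin : (S1.card : ℝ) + S2.card ≤ 56 * C0 * (ll x) ^ C * X * (x : ℝ) ^ (-uB) +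
      56 * C0 ^ 2 * (Ez a ρ ι δ z * Real.exp ((ρ / 2) ^ a)) * X * D * (ll x) ^ C *
      ((2 + (ll x) ^ A') * (ll x) ^ A') / Real.log x := by
    have := add_le_add hb1 hb2
    refine this.trans (le_of_eq ?_)
    ring
  linarith only [hcard, k2, k4, hfin]

end

end Pool.Agent.Helper7.TOT
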